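import Pool.Agent.EllCL.DimEss
import Pool.Agent.Schn.Main

/-!
# The elliptic Schanuel inequality up to the part defined over `ecl ∅`

Let `E = ecl ∅` be the smallest elliptically closed subfield of the complex numbers (`EllClosed`). It
is countable, and its elements are lower elementary numbers. Let `ℤ ω₁ + ℤ ω₂` be any lattice and
`p₁, …, pₙ` satisfy the hypotheses of Q1 of MP_2ad15a_nt, let `m` be the dimension over `k` of the
intersection of `span_k (p₁, …, pₙ)` with `E ω₁`, and let `d` be the dimension of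
`ω₁, ω₂, p₁, …, pₙ` over `E` (`eclDim`; `d = 0` if and only if they are all in `E`). Then
`trdeg F ≥ min (2 n + d, 2 (n - m) + d + 1)`. In particular Q1 holds whenever `2 m ≤ d + 1`: for
`n = 1` it holds for all `(ω₁, ω₂, p₁)` outside the countable set `E ^ 3`. The proof uses Schneider's
theorem (`g₂, g₃, p, ℘ (p)` are not all algebraic), which is proved in `Pool/Agent/Schn`.
-/

namespace Pool.Agent.Results.MP_2ad15a_nt.EDefect

open Pool.Agent.EllSch Pool.Agent.EllCL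

theorem result : (EllClosed (ecl ∅) ∧ (ecl ∅ : Set ℂ).Countable ∧ ∀ z ∈ ecl ∅, IsLowerElem z) ∧
    ∀ (ω₁ ω₂ : ℂ) (n : ℕ) (p : Fin n → ℂ), Admissible ω₁ ω₂ p →
    ∀ d : ℕ, d = eclDim (ecl ∅) ({ω₁, ω₂} ∪ Set.range p) →
      (d = 0 ↔ ω₁ ∈ ecl ∅ ∧ ω₂ ∈ ecl ∅ ∧ ∀ i, p i ∈ ecl ∅) ∧
      ∃ V : Submodule (kfield ω₁ ω₂) ℂ,
        (∀ z, z ∈ V ↔ z ∈ Submodule.span (kfield ω₁ ω₂) (Set.range p) ∧ z / ω₁ ∈ ecl ∅) ∧
        ((min (2 * n + d) (2 * (n - Module.finrank (kfield ω₁ ω₂) V) + d + 1) : ℕ) : Cardinal) ≤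
          Algebra.trdeg ℚ (F ℚ ω₁ ω₂ p) := by
  refine ⟨⟨closed_ecl ∅, countable_ecl Set.countable_empty, fun _ hz => ecl_lower hz⟩, ?_⟩
  rintro ω₁ ω₂ n p hadm d rfl
  have h : Ind ω₁ ω₂ := (ind_iff ω₁ ω₂).2 hadm.basis
  have hoff : ∀ i, Off ω₁ ω₂ (p i) := fun i x => hadm.off i x
  refine ⟨?_, Submodule.span (kfield ω₁ ω₂) (Set.range p) ⊓ WK E0 h, fun z => Iff.rfl, ?_⟩
  · exact (eclDim_eq_zero E0 (data_finite p)).trans (data_subset (O := E0))
  · apply hasT_trdeg h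
    by_cases hτ : ω₂ / ω₁ ∈ E0.K
    · obtain ⟨c, q, hc, hca, hcb, hq, hqoff, hqi, hrel, hT⟩ := fin_ess h hoff hadm.indep E0 hτ
      have h' : Ind (c * ω₁) (c * ω₂) := ind_smul h hc
      have hm := md_le h E0 hadm.indep
      have e : Module.finrank (kfield ω₁ ω₂) (Submodule.span (kfield ω₁ ω₂) (Set.range p) ⊓
        WK E0 h : Submodule (kfield ω₁ ω₂) ℂ) = md E0 h p := rfl
      rw [e]
      have e2 : eclDim E0.K ({ω₁, ω₂} ∪ Set.range p) = eclDim (ecl ∅) ({ω₁, ω₂} ∪ Set.range p) :=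
        rfl
      rcases Nat.eq_zero_or_pos (md E0 h p) with h0 | h0
      · refine (hT 0 ⟨∅, le_refl _, ?_⟩).mono ?_
        · have : IsEmpty {x : Fin 2 ⊕ (Fin 3 × Fin (md E0 h p)) // x ∈ (∅ : Finset _)} :=
            ⟨fun x => absurd x.2 (Finset.notMem_empty _)⟩
          exact algebraicIndependent_empty_type_iff.2 (algebraMap ℚ ℂ).injective
        · rw [e2]
          exact (min_le_left _ _).trans (by omega)
      · refine (hT 1 (hasT_one hqoff h0 fun z hz h1 h2 h3 h4 =>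
          Pool.Agent.Schn.schneider h' hz h1 h2 h3 h4)).mono ?_
        exact (min_le_right _ _).trans (le_of_eq (Nat.add_comm _ _))
    · exact (fin_rat h hoff (rat_of_kfield hadm.indep) E0 hτ).mono (min_le_left _ _)

end Pool.Agent.Results.MP_2ad15a_nt.EDefect
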