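import Pool.Agent.EllCL.DimEss

/-!
# The elliptic Schanuel inequality for all shapes outside an elliptically closed field

Let `K` be an elliptically closed subfield of the complex numbers (`EllClosed`: `K` contains the
coordinates of every nondegenerate zero of every square system of functions built from constants
in `K`, the coordinates, the field operations and the Weierstrass functions `℘` and `ζ` as functions
of the basis of the lattice and of the argument). For every lattice `ℤ ω₁ + ℤ ω₂` with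
`ω₂ / ω₁ ∉ K`, all `n` and all `p₁, …, pₙ` off the lattice which are linearly independent over `ℚ`,
let `d ≥ 1` be the dimension of `ω₁, ω₂, p₁, …, pₙ` over `K` (`eclDim`). The field `F` of Q1 of
MP_2ad15a_nt has transcendence degree at least `2 n + d` over `ℚ`; even over `K` the transcendence
degree is at least `2 n + d - 1`, and at least `2 n + d` unless both periods are rational
combinations of the `pᵢ`. The smallest elliptically closed field `ecl ∅` is countable, in fact its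
elements are lower elementary complex numbers.
-/

namespace Pool.Agent.Results.MP_2ad15a_nt.NonPrimrecShapes

open Pool.Agent.EllSch Pool.Agent.EllCL

theorem result : (EllClosed (ecl ∅) ∧ (ecl ∅ : Set ℂ).Countable ∧ ∀ z ∈ ecl ∅, IsLowerElem z) ∧
    ∀ K : Subfield ℂ, EllClosed K → ∀ ω₁ ω₂ : ℂ, LinearIndependent ℝ ![ω₁, ω₂] → ω₂ / ω₁ ∉ K →
    ∀ (n : ℕ) (p : Fin n → ℂ), (∀ i x, p i ≠ latticePt ω₁ ω₂ x) → LinearIndependent ℚ p →
    ∀ d : ℕ, d = eclDim K ({ω₁, ω₂} ∪ Set.range p) → 1 ≤ d ∧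
      ((2 * n + d : ℕ) : Cardinal) ≤ Algebra.trdeg ℚ (F ℚ ω₁ ω₂ p) ∧
      ((2 * n + d - 1 : ℕ) : Cardinal) ≤ Algebra.trdeg K (F K ω₁ ω₂ p) ∧
      (¬ (ω₁ ∈ Submodule.span ℚ (Set.range p) ∧ ω₂ ∈ Submodule.span ℚ (Set.range p)) →
        ((2 * n + d : ℕ) : Cardinal) ≤ Algebra.trdeg K (F K ω₁ ω₂ p)) := by
  refine ⟨⟨closed_ecl ∅, countable_ecl Set.countable_empty, fun _ hz => ecl_lower hz⟩, ?_⟩
  rintro K hK ω₁ ω₂ hω hτ n p hoff hp d rfl
  have h : Ind ω₁ ω₂ := (ind_iff ω₁ ω₂).2 hω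
  obtain ⟨h1, h2⟩ := chainA h (fun i x => hoff i x) hp _ ⟨K, hK⟩ hτ (ch_of_dim ⟨K, hK⟩ h p)
  exact ⟨dim_pos ⟨K, hK⟩ hτ p, hasT_trdeg h (fin_rat h (fun i x => hoff i x) hp ⟨K, hK⟩ hτ),
    hasT_trdeg h h1, fun hper => hasT_trdeg h (h2 hper)⟩

end Pool.Agent.Results.MP_2ad15a_nt.NonPrimrecShapes
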