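import Pool.Agent.EllCL.DimEss

/-!
# All essential counterexamples to the elliptic Schanuel conjecture are defined over `ecl ∅`

Let `E = ecl ∅` be the smallest elliptically closed subfield of the complex numbers
(`EllClosed`). It is countable, and its elements are lower elementary numbers. Let `p₁, …, pₙ`
satisfy the hypotheses of Q1 of MP_2ad15a_nt for the lattice `Λ = ℤ ω₁ + ℤ ω₂` and let `d` be the
dimension of `ω₁, ω₂, p₁, …, pₙ` over `E` (`eclDim`). If `trdeg F < 2 n + d` then `ω₂ / ω₁ ∈ E`, and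
if `ω₂ / ω₁ ∈ E` then a multiple `c Λ` of the lattice has its periods in `E`, and there are
points `q₁, …, qₘ` of `E`, where `m` is the dimension over `k` of the space of all `z` in
`span_k (p₁, …, pₙ)` with `z / ω₁ ∈ E`, rationally equivalent to combinations of the `c pᵢ` with
coefficients in the endomorphism ring and again admissible, with
`trdeg F (c Λ, q) + 2 (n - m) + d ≤ trdeg F (Λ, p)`. Hence Q1 for all lattices and points reduces to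
lattices with periods in `E` and points in `E`, and if it holds for these then
`trdeg F ≥ 2 n + d` for all lattices and points.
-/

namespace Pool.Agent.Results.MP_2ad15a_nt.PrimrecEssential

open Pool.Agent.EllSch Pool.Agent.EllCL

theorem result : (EllClosed (ecl ∅) ∧ (ecl ∅ : Set ℂ).Countable ∧ ∀ z ∈ ecl ∅, IsLowerElem z) ∧
    ∀ (ω₁ ω₂ : ℂ) (n : ℕ) (p : Fin n → ℂ), Admissible ω₁ ω₂ p →
    ∀ d : ℕ, d = eclDim (ecl ∅) ({ω₁, ω₂} ∪ Set.range p) →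
      (Algebra.trdeg ℚ (F ℚ ω₁ ω₂ p) < ((2 * n + d : ℕ) : Cardinal) → ω₂ / ω₁ ∈ ecl ∅) ∧
      (ω₂ / ω₁ ∈ ecl ∅ → ∃ (V : Submodule (kfield ω₁ ω₂) ℂ) (m : ℕ) (c : ℂ) (q : Fin m → ℂ),
        (∀ z, z ∈ V ↔ z ∈ Submodule.span (kfield ω₁ ω₂) (Set.range p) ∧ z / ω₁ ∈ ecl ∅) ∧
        m = Module.finrank (kfield ω₁ ω₂) V ∧ m ≤ n ∧ c ≠ 0 ∧
        Admissible (c * ω₁) (c * ω₂) q ∧ c * ω₁ ∈ ecl ∅ ∧ c * ω₂ ∈ ecl ∅ ∧ (∀ j, q j ∈ ecl ∅) ∧
        (∀ j, ∃ (l : ℕ) (α : Fin n → ℂ), 1 ≤ l ∧ (∀ i, IsEnd ω₁ ω₂ (α i)) ∧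
          (l : ℂ) * q j = ∑ i, α i * (c * p i)) ∧
        Algebra.trdeg ℚ (F ℚ (c * ω₁) (c * ω₂) q) + ((2 * (n - m) + d : ℕ) : Cardinal) ≤
          Algebra.trdeg ℚ (F ℚ ω₁ ω₂ p)) := by
  refine ⟨⟨closed_ecl ∅, countable_ecl Set.countable_empty, fun _ hz => ecl_lower hz⟩, ?_⟩
  rintro ω₁ ω₂ n p hadm d rfl
  have h : Ind ω₁ ω₂ := (ind_iff ω₁ ω₂).2 hadm.basis
  have hoff : ∀ i, Off ω₁ ω₂ (p i) := fun i x => hadm.off i x
  refine ⟨fun hlt => ?_, fun hτ => ?_⟩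
  · by_contra hτ
    exact absurd (hasT_trdeg h (fin_rat h hoff (rat_of_kfield hadm.indep) E0 hτ)) (not_le.2 hlt)
  · obtain ⟨c, q, hc, hca, hcb, hq, hqoff, hqi, hrel, hT⟩ := fin_ess h hoff hadm.indep E0 hτ
    have h' : Ind (c * ω₁) (c * ω₂) := ind_smul h hc
    refine ⟨Submodule.span (kfield ω₁ ω₂) (Set.range p) ⊓ WK E0 h, _, c, q, fun z => Iff.rfl, rfl,
      md_le h E0 hadm.indep, hc, ⟨(ind_iff _ _).1 h', fun j x => hqoff j x, hqi⟩, hca, hcb, hq,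
      hrel, ?_⟩
    obtain ⟨N, hN, hN'⟩ := trdeg_hasT h' q
    rw [hN, ← Nat.cast_add]
    exact hasT_trdeg h (hT N hN')

end Pool.Agent.Results.MP_2ad15a_nt.PrimrecEssential
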