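import Pool.Agent.EllCL.DimEss

/-!
# The relative elliptic Schanuel inequality over an elliptically closed field

Let `K` be an elliptically closed subfield of the complex numbers (`EllClosed`), for instance the
smallest one, or the smallest one which contains a given countable set (both are countable). Let
`ℤ ω₁ + ℤ ω₂` be any lattice with `ω₂ / ω₁ ∈ K` (complex multiplication allowed), let
`p₁, …, pₙ` satisfy the hypotheses of Q1 of MP_2ad15a_nt, let `m` be the dimension over `k` of the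
space of all `z` in `span_k (p₁, …, pₙ)` with `z / ω₁ ∈ K`, and let `d` be the dimension of
`ω₁, ω₂, p₁, …, pₙ` over `K` (`eclDim`; `d = 0` if and only if they are all in `K`). Then
`trdeg_K K (g₂, g₃, pᵢ, ℘ (pᵢ), ζ (pᵢ)) ≥ 2 (n - m) + d`.
-/

namespace Pool.Agent.Results.MP_2ad15a_nt.PrimrecRelative

open Pool.Agent.EllSch Pool.Agent.EllCL

theorem result : (∀ A : Set ℂ, EllClosed (ecl A) ∧ A ⊆ ecl A ∧
      (A.Countable → (ecl A : Set ℂ).Countable)) ∧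
    ∀ K : Subfield ℂ, EllClosed K → ∀ (ω₁ ω₂ : ℂ) (n : ℕ) (p : Fin n → ℂ), Admissible ω₁ ω₂ p →
      (eclDim K ({ω₁, ω₂} ∪ Set.range p) = 0 ↔ ω₁ ∈ K ∧ ω₂ ∈ K ∧ ∀ i, p i ∈ K) ∧
      (ω₂ / ω₁ ∈ K → ∃ V : Submodule (kfield ω₁ ω₂) ℂ,
        (∀ z, z ∈ V ↔ z ∈ Submodule.span (kfield ω₁ ω₂) (Set.range p) ∧ z / ω₁ ∈ K) ∧
        ((2 * (n - Module.finrank (kfield ω₁ ω₂) V) +
          eclDim K ({ω₁, ω₂} ∪ Set.range p) : ℕ) : Cardinal) ≤ Algebra.trdeg K (F K ω₁ ω₂ p)) := by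
  refine ⟨fun A => ⟨closed_ecl A, subset_ecl A, fun hA => countable_ecl hA⟩, ?_⟩
  intro K hK ω₁ ω₂ n p hadm
  have h : Ind ω₁ ω₂ := (ind_iff ω₁ ω₂).2 hadm.basis
  refine ⟨?_, fun hτ => ⟨Submodule.span (kfield ω₁ ω₂) (Set.range p) ⊓ WK ⟨K, hK⟩ h,
    fun z => Iff.rfl, ?_⟩⟩
  · rw [eclDim_eq_zero ⟨K, hK⟩ (data_finite p)]
    exact data_subset (O := ⟨K, hK⟩)
  · exact hasT_trdeg h (chainB h (fun i x => hadm.off i x) hadm.indep _ ⟨K, hK⟩ hτ
      (ch_of_dim ⟨K, hK⟩ h p))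

end Pool.Agent.Results.MP_2ad15a_nt.PrimrecRelative
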